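import Pool.Agent.V8H94.TU.Rat

/-!
# Products of surfaces: the conjectures of Tate and Beilinson follow from codimension two

**Theorem.** Let `W` be a class of smooth projective varieties over finite fields of characteristic
`p`, and for `X` in `W` and `i ≤ dim X` let `c = c (X, i) ≤ i / 2` be such that the slopes of
`H ^ i (X)` are at least `c`: the Frobenius eigenvalues are multiples of `q ^ c` in the ring of
algebraic integers (`c = 0` is always possible). Cycles are taken over the algebraic closure, with
coefficients in an algebraically closed field of characteristic zero. The following statements are
equivalent:

1. for all abelian varieties `A` and all products `X` of members of `W`, in all codimensions: the Tate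
   conjecture for `A`, the strong Tate conjecture for `X × A` (the Tate conjecture and the
   semisimplicity of the eigenvalue in question), and the conjecture of Beilinson for `A` and `X × A`:
   the Chow groups are finite-dimensional and the intersection pairings `CH ^ n × CH ^ (d - n)` are
   perfect, that is, rational and numerical equivalence coincide;
2. the Tate conjecture for the `A` and the strong Tate conjecture for the `X × A` in all codimensions,
   and the Chow motives of the `X` are retracts of sums of motives of abelian varieties, with twists;
3. (a) the Tate classes of codimension one on abelian varieties, and for abelian varieties
   `B₁, ..., B₄` those of codimension two in the Künneth component `H ^ 1 (B₁) ⊗ ... ⊗ H ^ 1 (B₄)`,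
   are algebraic,
   (b) for `X` in `W`, `i ≤ dim X`, `c = c (X, i)`, `j = i - 2 c` and abelian varieties
   `B₁, ..., B_j` the generalised Tate classes `x ⊗ b` in
   `H ^ i (X) ⊗ H ^ 1 (B₁) ⊗ ... ⊗ H ^ 1 (B_j)`, of codimension `i - c`, are algebraic, and
   (c) for `X` in `W` the homologically trivial elements of `CH ^ dim X (X × X)` are nilpotent
   correspondences.

In codimension zero and one, so for `i ≤ 1` in (b), the parts (a) and (b) of 3 hold by the theorem of
Tate. Every abelian variety is a quotient of the Jacobian of a curve, and the motives `h ^ 1` of a
curve and of its Jacobian are the same; so the abelian varieties in 3 can be replaced by curves.

If `W` consists of surfaces then (a) and (b) are about codimension two on products of a surface and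
two curves, (c) is about codimension two on products of two surfaces, and 1 about all codimensions on
all products of surfaces of the class `W`. So the conjectures of Tate (with semisimplicity) and of
Beilinson in all codimensions on all products of surfaces over finite fields follow from their cases
of codimension two on the products of two surfaces. The same is true for products of surfaces and of
threefolds such that the slopes of `H ^ 3 (X)` are at least one, for instance threefolds with
`H ^ 3 (X, O) = 0` or uniruled ones, with codimension three only in (c). More generally, the case of
codimension at most `n` on products of two varieties of dimension at most `n` implies all cases for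
products of varieties of dimension at most `n`. Finite-dimensionality in the sense of Kimura of the
motives of the surfaces is not assumed; (c) is weaker, it concerns only the cycles on `X × X`, and by
2 finite-dimensionality is one of the conclusions. If the motives of the members of `W` are
finite-dimensional, for instance if `W` consists of surfaces dominated by products of curves, then (c)
holds and the conjecture of Beilinson for all products follows from (a) and (b), the case of
codimension two of the Tate conjecture.

The classes in (a) and (b) are described by `IsSplit`: the class `b` on the abelian variety `B` is the
product of `v 1, ..., v j` in `H ^ 1 (B)` and there are endomorphisms `e` of `B` with `e (v l) = v l`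
and `e (v k) = 0` for `k ≠ l`. Then `b` is algebraic if and only if `v 1 ⊗ ... ⊗ v j` on `B ^ j` is
algebraic, see `MP_950c68_ag.CodimensionTwoForSurfaces`.

Remark, not part of the statement below. The perfect pairings over the algebraic closure give perfect
pairings over the finite fields, by taking invariants under Frobenius, which acts through finite
groups.

**How this is stated.** Abelian varieties over finite fields are described, as objects `AbVar`, by
their first cohomology with the Frobenius endomorphism (Tate, Honda and Tate); their cohomology is
the exterior algebra. For the other varieties `X` a structure `Cohomology` contains the cohomology
with its grading, the Frobenius endomorphism and the Lefschetz operator of an ample divisor, and their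
known properties: the theorem of Deligne on the eigenvalues of Frobenius, the hard Lefschetz theorem,
products over a common extension of the fields of definition and the Künneth formula. A structure
`Cycles` contains the spaces spanned by the classes of algebraic cycles on the `A` and the `X × A`,
with their formal properties, see `MP_950c68_ag.CodimensionTwoForSurfaces`. No theorem on the
existence of cycles and no conjecture is assumed.

`ChowGroups` contains the Chow groups of the `X × A` and the Chow groups and correspondences of the
abelian varieties, with cycle classes, intersection numbers and Poincaré duality; `IsChowGroups` lists
their formal properties: compatibilities, the cycles are defined over finite fields and Frobenius acts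
on them as a power of `q`, and for abelian varieties the theorem of Kimura that homologically trivial
correspondences are nilpotent. `Corr` contains the rings
`R X = CH ^ dim X (X × X)` of correspondences of degree zero, their operation on the cohomology of `X`
and on the Chow groups of the `X × A`, exterior products, and the sets `thr X` of the composites
`X → B → X` of correspondences, for all abelian varieties `B`; `IsTensor`, `IsThrough`, `IsPull` list
their formal properties: the exterior product of two such composites is one, such a composite
operates on a homologically trivial cycle on `X × A` through a homologically trivial cycle on an
abelian variety, and the composite of cycles with the classes `x ⊗ y`, `x' ⊗ y'` operates on the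
cohomology in the known way.

**Known.** The strong Tate conjecture for `P` and the finite-dimensionality of its motive imply that
rational and numerical equivalence coincide on `P` (Soulé 1984 and Geisser 1998 for products of
curves, Kahn 2003; Kimura, O'Sullivan, André and Kahn, Jannsen on nilpotence). The Tate conjecture for
all varieties and nilpotence imply that all Chow motives over finite fields come from abelian
varieties (Milne 1994, 1999). New is that codimension two suffices for all products of surfaces. The
theorems `GrowthGap` and `FrobeniusOnZeroCycles` of this collection assume the strong Tate conjecture
in all codimensions in question.

**The proof.** By `MP_950c68_ag.CodimensionTwoForSurfaces` 3 implies the strong Tate conjecture in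
all codimensions. It implies that Frobenius is semisimple on the cohomology of `X` in `W`. For
eigenvectors `x` and `x'` which are dual to each other there are an abelian variety `B` and
complementary products `y`, `y'` of eigenvectors on `B` such that `x ⊗ y` and `x' ⊗ y'` are Tate
classes, so they are classes of cycles `u` and `v`; then `v ∘ u` operates as the projection to the
line of `x'`. So the identity of `X` is homologically equivalent to a sum of correspondences which
factor through abelian varieties. By (c) it is such a sum. This passes to products of varieties, and
homologically trivial cycles on `X × A` vanish since this is true on abelian varieties, by the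
argument of Soulé and Kahn. The strong Tate conjecture and Poincaré duality give the perfectness.
-/

set_option autoImplicit false

namespace Pool.Agent.Results.MP_4960c7_ag.CodimensionTwoForSurfaces

open Pool.Agent.V8H94.CT (AbVar)
open Pool.Agent.V8H94.TC (TateHolds)
open Pool.Agent.V8H94.TV
open Pool.Agent.V8H94.TS (SlopesAtLeast TateInDegreesOne TateInDegrees)
open Pool.Agent.V8H94.CY

/-- **The conjectures of Tate and Beilinson in all codimensions for all products of members of a class
`W` of varieties, and abelian varieties, are equivalent to the strong Tate conjecture for the classes
in `H ^ i (X) ⊗ H ^ 1 (B₁) ⊗ ... ⊗ H ^ 1 (B_j)`, `X` in `W`, `i ≤ dim X`, `j = i - 2 c`, if the slopes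
of `H ^ i (X)` are at least `c`, for the classes of codimension one on abelian varieties and for the
classes in `H ^ 1 (B₁) ⊗ ... ⊗ H ^ 1 (B₄)`, for abelian varieties `B₁, B₂, ...`, together with the
nilpotence of the homologically trivial elements of `CH ^ dim X (X × X)` for `X` in `W`.** If `W`
consists of surfaces, only codimension at most two occurs in the last statement. -/
theorem result (p : ℕ) [Fact p.Prime] (Ω : Type) [Field Ω] [IsAlgClosed Ω] [CharZero Ω]
    (H : Cohomology p Ω) (Z : Cycles p H.T) (W : Set H.T.V) (c : H.T.V → ℕ → ℕ)
    (hc : ∀ X ∈ W, ∀ i ≤ H.T.dim X, 2 * c X i ≤ i ∧ SlopesAtLeast p H.T X i (c X i))
    -- the Chow groups and their formal properties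
    (D : ChowGroups p H.T) (hchow : IsChowGroups Z D)
    (Q : Corr D) (htensor : IsTensor Q) (hthrough : IsThrough Q) (hpull : IsPull Q) :
    [(∀ A : AbVar p Ω, (∀ r, TateHolds Z.S A r) ∧ PerfectAb (D.ab A)) ∧
      ∀ X, IsProduct H.T W X → ∀ A : AbVar p Ω, StrongTate Z X A ∧ Perfect (D.G X A),
    (∀ A : AbVar p Ω, ∀ r, TateHolds Z.S A r) ∧
      ∀ X, IsProduct H.T W X → IsRetract Q X ∧ ∀ A : AbVar p Ω, StrongTate Z X A,
    (∀ A : AbVar p Ω, TateHolds Z.S A 1) ∧ TateInDegreesOne Z.S ∧
      ∀ X ∈ W, (∀ i ≤ H.T.dim X, TateInDegrees Z X i (i - 2 * c X i) (i - c X i)) ∧
        HomNilpotent Q X].TFAE :=
  Pool.Agent.V8H94.TU.main_rat H Z W c hc D hchow Q htensor hthrough hpull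

end Pool.Agent.Results.MP_4960c7_ag.CodimensionTwoForSurfaces
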