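import Pool.Agent.V8H76.Fr.Chow
import Pool.Agent.V8H76.Fr.Stm

/-!
# Rational and numerical equivalence, the Tate conjecture, and Frobenius on zero-cycles

`𝒱` is a class of smooth projective geometrically irreducible varieties over the field `k`, closed
under products, which contains varieties of each dimension (for the problem: all of them, over the
field `k` with `q` elements), `C` the Chow groups with rational coefficients (in the form of their
formal properties, `IsChowProj`), `H` a Weil cohomology theory with coefficients in a field `K` of
characteristic zero (`IsWeilProj`), and `Φ X` the Frobenius endomorphism of `X` relative to `k`: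
it commutes with all morphisms and `(Φ X)^*` is the multiplication by `q^i` on `CH^i(X)`
(`IsFrobenius`). `IsPure` records two consequences of the theorem of Deligne, and `ZeroCyclesFinite`
the finiteness of the group of zero-cycles of degree zero over a finite field.

Theorem. The following are equivalent.

1. For all `X` all Tate classes (in the generalised eigenspaces) are algebraic, and the intersection
   pairings `CH^n(X)_ℝ × CH^(d-n)(X)_ℝ → ℝ` are perfect: the conjectures of Tate (in the strong form)
   and Beilinson.
2. For all `X` all Tate classes are algebraic, and homologically trivial cycles are zero in
   `CH^i(X)_ℚ`.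
3. For all `X` all Tate classes are algebraic, and each homologically trivial self-correspondence
   of degree zero of `X`, `dim X ≥ 1`, has a power which is a sum of compositions `X → D → X` through
   varieties `D` of dimension `dim X - 1`.
4. For all `X`, `dim X ≥ 1`, there is a polynomial `P` with rational coefficients which does not
   vanish at `1, q, …, q^(dim X - 1)` and such that `P(Φ^*)` is a sum of compositions `X → D → X` in
   the Chow groups through varieties `D` of dimension `dim X - 1`.

So the two conjectures together are equivalent to a statement about the operation of Frobenius on
zero-cycles only: the correspondence in 4 concerns the generic point of `X`. In terms of the push-forward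
`Φ_* = q^(dim X) (Φ^*)⁻¹`, which is the usual operation on the zero-cycles of `X` over extensions of `k`,
statement 4 says that `Φ_*` satisfies, on zero-cycles and up to correspondences through varieties of
smaller dimension, a polynomial equation which has none of the roots `q, q^2, …, q^(dim X)`. Neither
the other Chow groups nor cohomology appear in it. In 3 the nilpotence of homologically trivial
correspondences (a consequence of the finite-dimensionality of Kimura) is only asked on zero-cycles.

Proof of 4 => 2: induction on `dim X`. On `CH^i(X)`, `i < dim X`, `P(Φ^*)` is the multiplication by
`P(q^i) ≠ 0`; on Tate classes of codimension `i` it is invertible. Both operations factor through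
varieties of dimension `dim X - 1`. Proof of 3 => 4: let `χ` annihilate `Φ^*` on `H(X)`, `χ = A B`
with `A` a product of powers of the `T - q^i`, `i < dim X`, and `B(q^i) ≠ 0` for `i < dim X`. By the
Tate conjecture there is a decomposable correspondence `E` which is the identity on the Tate classes of
codimension less than `dim X`; then `B(Φ^*) - E B(Φ^*)` is homologically trivial.
-/

set_option autoImplicit false

open CategoryTheory AlgebraicGeometry

universe u v w

namespace Pool.Agent.Results.MP_4960c7_ag.FrobeniusOnZeroCycles

open Pool.Agent.H914 Pool.Agent.H914.VarClass Pool.Agent.H914.VarClass.Obj Pool.Agent.W492.BB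
  Pool.Agent.TH133 Pool.Agent.V8H76.Fr

/-- The conjectures of Tate and Beilinson are equivalent to a statement about Frobenius on
zero-cycles. -/
theorem result {k : Type u} [Field k] {𝒱 : VarClass k} {C : TheoryData.{u, v, 0} 𝒱 ℚ} {K : Type w}
    [Field K] [CharZero K] (H : WeilTheoryData.{u, v, w} C K) [IsChowProj C] [IsWeilProj H]
    (q : ℕ) (Φ : Endos 𝒱) (hΦ : IsFrobenius C q Φ) (hP : IsPure H q Φ)
    (hdim : ∀ m : ℕ, ∃ D : 𝒱.Obj, D.dim = m) (hKS : ZeroCyclesFinite H) :
    [TateAndPerfect H q Φ, TateAndRational H q Φ, TateAndNilpotent H q Φ,
      FrobeniusEquation C q Φ].TFAE :=
  chow_tfae H hΦ hP hdim hKS

end Pool.Agent.Results.MP_4960c7_ag.FrobeniusOnZeroCycles
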