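import Pool.Agent.V8H87.GG.Fin

/-!
# A gap for the size of the Chow groups of the powers of a variety over a finite field

Let `X` be any smooth projective scheme over the finite field with `q` elements and `b` the dimension
of its `ℓ`-adic cohomology (the sum of the Betti numbers). If the conjecture of the question holds for
`X ^ n` then `dim CH^*(X ^ n)_ℚ ≤ b ^ n`.

Theorem. (1) Suppose that, for some real number `r < b + 2`, the inequality
`dim CH^*(X ^ n)_ℚ ≤ r ^ n` holds for infinitely many `n` (this is `SmallChow`). Then the Chow motive
of `X` is finite-dimensional in the sense of Kimura.

(2) If this is so and the (strong) conjecture of Tate holds for one power `X ^ n` then rational and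
numerical equivalence agree on `X ^ n`: all the pairings of the question for `X ^ n` are perfect.

(3) Suppose that the strong conjecture of Tate holds for all powers of `X`. Then the following
statements are equivalent.
* All the pairings of the question are perfect for all powers of `X`.
* `dim CH^*(X ^ n)_ℚ ≤ b ^ n` for all `n`.
* For some real number `r < b + 2`, `dim CH^*(X ^ n)_ℚ ≤ r ^ n` for infinitely many `n`.
* For some real number `r < b + 2` the graphs of the `n!` permutations of the factors of `X ^ n` span
  a space of dimension at most `r ^ (2 n)` in the Chow group of `X ^ n × X ^ n`, for infinitely many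
  `n` (this is `SmallPerm`).
* The Chow motive of `X` is finite-dimensional in the sense of Kimura.

So there is a gap: if the conjecture fails for some power of such an `X`, then the Chow groups (and
even the spaces spanned by the permutations) of all large powers are exponentially larger than
predicted, the basis of the power being at least `b + 2` instead of `b`.

Earlier results of this kind (the file `ProductsVanish` for this problem) need a bound
`dim CH^*(X ^ n)_ℚ ≤ c ρ (n)` by a constant multiple of the rank `ρ (n)` modulo numerical
equivalence; here any bound with a smaller exponential rate than `b + 2` is enough, and it is enough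
to bound the space spanned by the permutations.

The setting. `C` is the pseudo-abelian hull of the category of the smooth projective schemes over the
finite field with the groups `CH^*(X × Y)_ℚ` (all codimensions) as morphisms; it is a rigid symmetric
monoidal category in which all `h(X)` are self-dual, `T = h(X)`, `tp T n = h(X ^ n)`, and
`𝟙_ C ⟶ tp T n` is `CH^*(X ^ n)_ℚ`. `R` is the `ℓ`-adic cohomology with coefficients extended to
an algebraic closure `K` of `ℚ_ℓ`; the sign conjecture `C⁺` is known for all `X` (Katz and Messing).
`φ n` is the class of the Frobenius endomorphism of `X ^ n`; the hypothesis `IsWt` says that it acts on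
the cycles of each codimension through a power of `q`. `StrongTate` says that the sum of the
multiplicities of all the `q ^ i` as eigenvalues of `φ n` on the cohomology of `X ^ n` is the rank of
the group of the cycles modulo numerical equivalence, that is, for all codimensions `i` the rank of
the group of the cycles of codimension `i` modulo numerical equivalence is the order of the pole of
the zeta function at `s = i`.

Steps of the proof. For the gap see `V8H87/GG/Count` and `V8H87/GG/Kim` (contraction of Young
symmetrizers). Tensor products of Kimura finite objects are Kimura finite by the gap, since the
dimensions of the algebras of permutations are submultiplicative. (2) is the theorem of Kahn: there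
is an idempotent `e` which is a sum of compositions `X ^ n → point → X ^ n` such that, with a polynomial
`P` of the Frobenius endomorphism `φ` without the zeros `q ^ i`, the endomorphism `P(φ) (1 - e)` is
homologically trivial, hence nilpotent; it acts on the numerically trivial cycles of codimension `i` as
`P(q ^ i) ≠ 0`.
-/

set_option autoImplicit false

open CategoryTheory MonoidalCategory Module
open Pool.Agent.Y112.SR Pool.Agent.Y112.KD Pool.Agent.N64.AF Pool.Agent.V8H87.GG
open Pool.Agent.R905 (IsKimuraFinite)

namespace Pool.Agent.Results.MP_4960c7_ag.GrowthGap

universe v u w

/-- The size of the Chow groups of the powers of a variety over a finite field and the agreement of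
rational and numerical equivalence. -/
theorem result {C : Type u} [Category.{v} C] [Preadditive C] [MonoidalCategory C]
    [MonoidalPreadditive C] [SymmetricCategory C] [RightRigidCategory C]
    [Linear ℚ C] [MonoidalLinear ℚ C] [IsIdempotentComplete C]
    {K : Type w} [Field K] [IsAlgClosed K] [Algebra ℚ K] (R : SuperRealisation C K)
    (T : C) [ExactPairing T T] (h : IsPow ℚ R T) (q : ℚ)
    (φ : ∀ n, tp T n ⟶ tp T n) (hφ : ∀ n, IsWt q (φ n)) :
    (SmallChow R T → IsKimuraFinite T) ∧
    (IsKimuraFinite T → ∀ n, StrongTate R q (φ n) → ∀ f : 𝟙_ C ⟶ tp T n, NumTriv f → f = 0) ∧
    ((∀ n, StrongTate R q (φ n)) →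
      [∀ (a b : ℕ) (f : tp T a ⟶ tp T b), NumTriv f → f = 0,
        ∀ n, Module.Finite ℚ (𝟙_ C ⟶ tp T n) ∧ finrank ℚ (𝟙_ C ⟶ tp T n) ≤ bt R T ^ n,
        SmallChow R T, SmallPerm R T, IsKimuraFinite T].TFAE) :=
  main h q φ hφ

end Pool.Agent.Results.MP_4960c7_ag.GrowthGap
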