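import Mathlib
import Pool.Agent.V8H71.OD.Main
import Pool.Agent.Y1.CT.Light
import Pool.Agent.Y1.CT.UnrelRel

/-!
# Rational and numerical equivalence on products with abelian varieties whose slopes are controlled by
a prime number at one real place

Let `π i` (`i` in a finite set) be Weil numbers for `q = p ^ a` in CM fields `K i`, pairwise
independent: for `i ≠ k` and all complex embeddings `φ` of `K i` and `ψ` of `K k` some automorphism of
`ℂ` is the identity on `φ (K i)` and the complex conjugation on `ψ (K k)` (no condition if there is
only one field). Let `u i` be the slope function of `π i` (`HasSlopeFunction`): the slope at the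
embedding `τ : K i → ℚ̄_p` is `(a + κ u i τ) / 2` with a rational number `κ ≠ 0` and integers
`u i τ`; `u i τ = 0` is the slope `a / 2`. Suppose that each `u i` satisfies one of the following
conditions (`BlockCondition`), in which `F` is a totally real subfield of `K i`, of any degree, and
`ι : F → ℚ̄_p` is one embedding of `F` (the restriction of `τ₀`):

* (`OrbitBlock`) `[K i : F] = 2 l ^ k` for an odd prime `l`; `l` divides `u i τ` for all `τ` that do
  not extend `ι`; and some group of automorphisms has an orbit of `l ^ k` embeddings that extend `ι`
  over which the sum of `u i` is not divisible by `l`;
* (`CountBlock`) `[K i : F] = 2 l ^ k` for an odd prime `l`; `l` divides `u i τ` for all `τ` that do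
  not extend `ι`; modulo `l` the values of `u i` at the `τ` that extend `ι` are `b`, `0` and `- b`,
  `l` does not divide `b`, and the value `b` occurs `m` times, where `m` is odd and less than `l`;
* (`TwoBlock`) `[K i : F] = 2 ^ (k + 1)`; `u i τ` is even for all `τ` that do not extend `ι`, and odd
  for `m` of the `τ` that extend `ι`, where `m` is not divisible by `4` (`m` is always even); or the
  same with `even` and `odd` exchanged, if `4` divides `[K i : ℚ]`.

For instance (`CountBlock`, `F = ℚ`): `K` has degree `2 l ^ k`, the slopes are `0`, `1 / 2` and `1`
(times `a`) and the slope `0` has an odd multiplicity less than `l`. Or: `[K : F] = 2 l ^ k`, there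
is a place of degree one of `F` above `p` such that all slopes at the other places are `1 / 2`, and
at this place the slopes are `1 / 2` and, with an odd multiplicity less than `l` each, `s` and
`1 - s`.

Let `f i` be monic polynomials whose complex roots are conjugates of `π i`, for instance the
characteristic polynomials of Frobenius of the abelian varieties in the isogeny classes of the `π i`
over the field with `q` elements. Let `A` be an abelian variety over the field with `Q = q ^ s`
elements which is isogenous to a product of powers of abelian varieties coming from the field with
`q` elements, with characteristic polynomials `f i`, and let `Z` be any smooth projective variety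
over the field with `Q` elements such that (`IsCase`)

* the eigenvalues `ρ` of Frobenius on the cohomology of `Z` and their conjugates are independent of
  the fields `K i` (`Independent`): for each complex embedding `ψ` of `K i` some automorphism of `ℂ`
  fixes a power of `ρ` and is the complex conjugation on `ψ (K i)` (for instance, a power of `ρ`
  lies in a totally real field or in a field linearly disjoint from the normal closure of `K i`);
* homologically trivial self-correspondences of degree zero of `A × Z` are nilpotent, for instance
  the motive of `Z` is finite-dimensional in the sense of Kimura and O'Sullivan. This is known for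
  all varieties dominated by products of curves.

Then (`PerfectPairingTimes`) the Kunneth formula `⨁ CH^i(A)_ℚ ⊗ CH^(n-i)(Z)_ℚ = CH^n(A × Z)_ℚ` holds,
in the form `CH^n(A × Z)_ℚ = ⨁ D j × CH^(n - c j)(Z)_ℚ` with finitely many products `D j` of
divisors on `A`, of codimension `c j`, and **the pairing**
`CH^n(A × Z)_ℝ × CH^(d-n)(A × Z)_ℝ → ℝ`, `d = dim A + dim Z`, **of the question is perfect if and
only if the pairings** `CH^m(Z)_ℝ × CH^(dim Z - m)(Z)_ℝ → ℝ` **with** `n - dim A ≤ m ≤ n` **are
perfect.** So the conjecture of Beilinson for `A × Z` is equivalent to the one for `Z`, degree by
degree. If `Z` is a point, or a curve or a surface with the two properties, all pairings for `Z` are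
perfect, and so are all pairings for `A × Z`; in particular for all products of powers of the abelian
varieties that belong to the `π i`.

The framework (`TheoryData`, `IsChow`, `IsWeil`) and the reduction to the absence of multiplicative
relations are those of the starting files `Y1/CT` (used by `AllCMTypesTimes`) and of the files of
helper492 and helper484 used there; new are the conditions on the abelian varieties.

The proof that there are no multiplicative relations, in the main case. Let `L` be the Galois closure
of `K`, `G` its group, `X` the set of the embeddings of `K`, `B` the set of those which extend `ι`,
`l` odd. A relation is an odd function `z : X → ℤ` orthogonal to all translates of `u`; we may assume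
that it is not zero modulo `l`, and, as `G` is transitive, not zero modulo `l` on `B`. Modulo `l` the
function `u` is zero outside of `B`; hence the restriction of `z` to `B` is orthogonal modulo `l` to
the translates of `u` under the stabilizer of `ι`. A Sylow subgroup `S` of the group in the condition
is transitive on the orbit `O`, as this has `l ^ k` elements; it acts on the space, not zero, of the
odd functions modulo `l` on `B` with this property; so there is such a function `w ≠ 0` invariant
under `S`. As `O` contains one element of each pair of complex conjugate elements of `B`, `w` is a
nonzero constant on `O`, and `2 w ∑ u = 0` modulo `l`, the sum over `O`, contrary to the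
assumption.
-/

set_option autoImplicit false

namespace Pool.Agent.Results.MP_4960c7_ag.PrimePowerBlocks

open NumberField Polynomial Pool.Agent.H977R3.CM Pool.Agent.Y137.MV Pool.Agent.Y1.CT
  Pool.Agent.V8H71.OD

/-- **The intersection pairings for `A × Z` are perfect if and only if those for `Z` are, degree by
degree, for all abelian varieties `A` with Weil numbers whose slope functions satisfy the condition at
one embedding of a totally real subfield, and all independent varieties `Z`.** -/
theorem result (p : ℕ) [Fact p.Prime] (a : ℕ) (ha : 0 < a) (I : Type) [Fintype I]
    (K : I → Type) [∀ i, Field (K i)] [∀ i, NumberField (K i)] [∀ i, IsCMField (K i)]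
    (hind : PairwiseIndep K) (π : ∀ i, K i) (u : ∀ i, (K i →+* PadicAlgCl p) → ℤ)
    (hu : ∀ i, HasSlopeFunction a (π i) (u i)) (hcond : ∀ i, BlockCondition (u i))
    (f : I → ℤ[X]) (hf : ∀ i, IsPolyOf (π i) (f i)) : PerfectPairingTimes K (p ^ a) f := by
  have hang := angle_of_block hind hu hcond
  have hq : 1 < p ^ a := Nat.one_lt_pow ha.ne' (Fact.out : p.Prime).one_lt
  have hone : Independent K 1 := by
    refine ⟨one_ne_zero, fun i ψ => ⟨starRingAut, 1, one_pos, by simp, fun x => ?_⟩⟩
    rfl
  have hR : NoRel f (p ^ a) (Independent K) :=
    ⟨fun i => (hf i).1, hone, fun s hs ρ hρ =>
      exactPair_of_angle hang (fun i => (hu i).weil) f hf s hs ρ (unrelated_of_independent hρ)⟩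
  exact perfectPairingTimes hq hR

end Pool.Agent.Results.MP_4960c7_ag.PrimePowerBlocks
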